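import Pool.Agent.H741.EL.Stm

/-! # Project EL (helper741), part DISC2 (helper728): the disc lies in the ellipse -/

set_option autoImplicit false
open MeasureTheory Metric Set Filter Topology

namespace Pool.Agent.H728.EL
open Pool.Agent.Y508
open Pool.Agent.H741.EL

/-- the identity, in coordinates -/
lemma core {a b p0 p1 z0 z1 k r : ℝ} (ha : 0 < a) (hb : 0 < b)
    (hp : (p0 / a) ^ 2 + (p1 / b) ^ 2 = 1)
    (hk : k ^ 2 * ((p0 / a ^ 2) ^ 2 + (p1 / b ^ 2) ^ 2) = r ^ 2) :
    (z0 - (p0 - k * (p0 / a ^ 2))) ^ 2 + (z1 - (p1 - k * (p1 / b ^ 2))) ^ 2 - r ^ 2 =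
      (a ^ 2 - k) * (z0 / a - p0 / a) ^ 2 + (b ^ 2 - k) * (z1 / b - p1 / b) ^ 2 +
        k * ((z0 / a) ^ 2 + (z1 / b) ^ 2 - 1) := by
  have ha' : a ≠ 0 := ha.ne'
  have hb' : b ≠ 0 := hb.ne'
  rw [← hk]
  obtain ⟨P0, hP0⟩ : ∃ P0, P0 = p0 / a := ⟨_, rfl⟩
  obtain ⟨P1, hP1⟩ : ∃ P1, P1 = p1 / b := ⟨_, rfl⟩
  have e0 : p0 = a * P0 := by rw [hP0]; field_simp
  have e1 : p1 = b * P1 := by rw [hP1]; field_simp
  rw [← hP0, ← hP1] at hp
  have f0 : p0 / a ^ 2 = P0 / a := by rw [hP0]; field_simp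
  have f1 : p1 / b ^ 2 = P1 / b := by rw [hP1]; field_simp
  rw [f0, f1, ← hP0, ← hP1, e0, e1]
  obtain ⟨Z0, hZ0⟩ : ∃ Z0, Z0 = z0 / a := ⟨_, rfl⟩
  obtain ⟨Z1, hZ1⟩ : ∃ Z1, Z1 = z1 / b := ⟨_, rfl⟩
  have g0 : z0 = a * Z0 := by rw [hZ0]; field_simp
  have g1 : z1 = b * Z1 := by rw [hZ1]; field_simp
  rw [← hZ0, ← hZ1, g0, g1]
  have h0 : (a * Z0 - (a * P0 - k * (P0 / a))) ^ 2 - k ^ 2 * (P0 / a) ^ 2 =
      a ^ 2 * (Z0 - P0) ^ 2 + 2 * k * P0 * (Z0 - P0) := by
    field_simp
    ring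
  have h1 : (b * Z1 - (b * P1 - k * (P1 / b))) ^ 2 - k ^ 2 * (P1 / b) ^ 2 =
      b ^ 2 * (Z1 - P1) ^ 2 + 2 * k * P1 * (Z1 - P1) := by
    field_simp
    ring
  linear_combination h0 + h1 + (-k) * hp

lemma dist_sq_E2 (x y : E2) : dist x y ^ 2 = (x 0 - y 0) ^ 2 + (x 1 - y 1) ^ 2 := by
  rw [dist_eq_norm, norm_sq_E2]
  rfl

theorem t_DISC2 (_h1 : S_ELL) : S_DISC2 := by
  intro a b p hb hab hp hcond
  have ha : 0 < a := by linarith
  have hp' : (p 0 / a) ^ 2 + (p 1 / b) ^ 2 = 1 := hp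
  have hr0 : 0 < rr a b := Real.sqrt_pos.2 (by positivity)
  have hr2 : rr a b ^ 2 = a * b / 2 := Real.sq_sqrt (by positivity)
  obtain ⟨M, hM⟩ : ∃ M, M = (p 0 / a ^ 2) ^ 2 + (p 1 / b ^ 2) ^ 2 := ⟨_, rfl⟩
  have hM0 : 0 < M := by
    rw [hM]
    by_contra hle
    have h1 : (p 0 / a ^ 2) ^ 2 = 0 := by
      have := sq_nonneg (p 0 / a ^ 2)
      have := sq_nonneg (p 1 / b ^ 2)
      linarith
    have h2 : (p 1 / b ^ 2) ^ 2 = 0 := by
      have := sq_nonneg (p 0 / a ^ 2)
      have := sq_nonneg (p 1 / b ^ 2)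
      linarith
    have h3 : p 0 = 0 := by
      have h4 : p 0 / a ^ 2 = 0 := by simpa using h1
      rcases div_eq_zero_iff.1 h4 with h | h
      · exact h
      · exact absurd h (by positivity)
    have h4 : p 1 = 0 := by
      have h4 : p 1 / b ^ 2 = 0 := by simpa using h2
      rcases div_eq_zero_iff.1 h4 with h | h
      · exact h
      · exact absurd h (by positivity)
    rw [h3, h4] at hp'
    norm_num at hp'
  have hN : 0 < Real.sqrt M := Real.sqrt_pos.2 hM0
  have hN2 : Real.sqrt M ^ 2 = M := Real.sq_sqrt hM0.le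
  obtain ⟨k, hk⟩ : ∃ k, k = rr a b / Real.sqrt M := ⟨_, rfl⟩
  have hk0 : 0 < k := by rw [hk]; positivity
  have hkM : k ^ 2 * M = rr a b ^ 2 := by
    rw [hk, div_pow, hN2]
    field_simp
  have hc0 : cen a b p 0 = p 0 - k * (p 0 / a ^ 2) := by
    rw [hk, hM]
    rfl
  have hc1 : cen a b p 1 = p 1 - k * (p 1 / b ^ 2) := by
    rw [hk, hM]
    rfl
  have key : ∀ z : E2, dist z (cen a b p) ^ 2 - rr a b ^ 2 =
      (a ^ 2 - k) * (z 0 / a - p 0 / a) ^ 2 + (b ^ 2 - k) * (z 1 / b - p 1 / b) ^ 2 +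
        k * ((z 0 / a) ^ 2 + (z 1 / b) ^ 2 - 1) := by
    intro z
    rw [dist_sq_E2, hc0, hc1]
    exact core ha hb hp' (by rw [← hM]; exact hkM)
  have hmem : ∀ z : E2, z ∈ closedBall (cen a b p) (rr a b) → dist z (cen a b p) ^ 2 - rr a b ^ 2 ≤ 0 := by
    intro z hz
    rw [mem_closedBall] at hz
    have := pow_le_pow_left₀ dist_nonneg hz 2
    linarith
  have hb2 : b ^ 2 ≤ a ^ 2 := pow_le_pow_left₀ hb.le hab 2
  -- the size of `k`
  have hkb : k < b ^ 2 ∨ (k = b ^ 2 ∧ b ^ 2 < a ^ 2 ∧ p 1 = 0) := by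
    rcases hcond with h | ⟨h1, h2⟩
    · left
      have h3 : k ^ 2 < (b ^ 2) ^ 2 := by
        have h4 : rr a b ^ 2 < (b ^ 2) ^ 2 * M := by
          have e : p 1 ^ 2 = b ^ 2 * (1 - p 0 ^ 2 / a ^ 2) := by
            have := hp'
            field_simp at this ⊢
            linear_combination this
          have e2 : (b ^ 2) ^ 2 * M = b ^ 2 * (a ^ 4 - (a ^ 2 - b ^ 2) * p 0 ^ 2) / a ^ 4 := by
            rw [hM, div_pow, div_pow, e]
            field_simp
            ring
          rw [e2, hr2, lt_div_iff₀ (by positivity)]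
          nlinarith [mul_pos hb ha]
        rw [← hkM] at h4
        exact lt_of_mul_lt_mul_right h4 hM0.le
      exact lt_of_pow_lt_pow_left₀ 2 (by positivity) h3
    · right
      have hp0 : p 0 ^ 2 = a ^ 2 := by
        rw [h2] at hp'
        have : (p 0 / a) ^ 2 = 1 := by
          rw [← hp']
          ring
        rw [div_pow, div_eq_one_iff_eq (by positivity)] at this
        exact this
      have hM1 : M = 1 / a ^ 2 := by
        rw [hM, h2, div_pow, hp0]
        field_simp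
        ring
      have hkk : k ^ 2 = (b ^ 2) ^ 2 := by
        rw [hM1, hr2] at hkM
        field_simp at hkM
        nlinarith
      refine ⟨?_, ?_, h2⟩
      · exact (pow_left_inj₀ hk0.le (by positivity) two_ne_zero).1 hkk
      · apply pow_lt_pow_left₀ _ hb.le two_ne_zero
        rcases hab.lt_or_eq with h | h
        · exact h
        · exfalso
          rw [h] at h1
          have : 0 < a ^ 3 := by positivity
          linarith
  have hkb' : k ≤ b ^ 2 := by
    rcases hkb with h | h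
    · exact h.le
    · exact h.1.le
  refine ⟨fun z hz => ?_, ?_⟩
  · have h1 := hmem z hz
    rw [key z] at h1
    have h2 : 0 ≤ (a ^ 2 - k) * (z 0 / a - p 0 / a) ^ 2 :=
      mul_nonneg (by linarith) (sq_nonneg _)
    have h3 : 0 ≤ (b ^ 2 - k) * (z 1 / b - p 1 / b) ^ 2 :=
      mul_nonneg (by linarith) (sq_nonneg _)
    have h4 : k * ((z 0 / a) ^ 2 + (z 1 / b) ^ 2 - 1) ≤ 0 := by linarith
    show (z 0 / a) ^ 2 + (z 1 / b) ^ 2 ≤ 1
    by_contra hcon
    push Not at hcon
    have := mul_pos hk0 (show 0 < (z 0 / a) ^ 2 + (z 1 / b) ^ 2 - 1 by linarith)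
    linarith
  · ext z
    rw [mem_singleton_iff]
    constructor
    · rintro ⟨hz, hzE⟩
      have h1 := hmem z hz
      have hzE' : (z 0 / a) ^ 2 + (z 1 / b) ^ 2 = 1 := hzE
      rw [key z, hzE', sub_self, mul_zero, add_zero] at h1
      have h2 : 0 ≤ (a ^ 2 - k) * (z 0 / a - p 0 / a) ^ 2 :=
        mul_nonneg (by linarith) (sq_nonneg _)
      have h3 : 0 ≤ (b ^ 2 - k) * (z 1 / b - p 1 / b) ^ 2 :=
        mul_nonneg (by linarith) (sq_nonneg _)
      have h4 : (a ^ 2 - k) * (z 0 / a - p 0 / a) ^ 2 = 0 := by linarith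
      have h5 : (b ^ 2 - k) * (z 1 / b - p 1 / b) ^ 2 = 0 := by linarith
      have hak : a ^ 2 - k ≠ 0 := by
        rcases hkb with h | h
        · have : 0 < a ^ 2 - k := by linarith
          exact this.ne'
        · have : 0 < a ^ 2 - k := by linarith [h.1, h.2.1]
          exact this.ne'
      have h6 : z 0 / a - p 0 / a = 0 := by
        rcases mul_eq_zero.1 h4 with h | h
        · exact absurd h hak
        · exact pow_eq_zero_iff two_ne_zero |>.1 h
      have h7 : z 0 = p 0 := by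
        have := sub_eq_zero.1 h6
        field_simp at this
        exact this
      have h8 : z 1 = p 1 := by
        rcases hkb with h | ⟨-, -, h⟩
        · have hbk : b ^ 2 - k ≠ 0 := by
            have : 0 < b ^ 2 - k := by linarith
            exact this.ne'
          have h9 : z 1 / b - p 1 / b = 0 := by
            rcases mul_eq_zero.1 h5 with h' | h'
            · exact absurd h' hbk
            · exact pow_eq_zero_iff two_ne_zero |>.1 h'
          have := sub_eq_zero.1 h9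
          field_simp at this
          exact this
        · rw [h7, ← hp', h] at hzE'
          have h9 : (z 1 / b) ^ 2 = 0 := by
            have e : ((0 : ℝ) / b) ^ 2 = 0 := by simp
            rw [e] at hzE'
            linarith
          have h10 := (pow_eq_zero_iff two_ne_zero).1 h9
          rw [h]
          rcases div_eq_zero_iff.1 h10 with h' | h'
          · exact h'
          · exact absurd h' hb.ne'
      ext i
      fin_cases i
      · exact h7
      · exact h8
    · rintro rfl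
      refine ⟨?_, hp⟩
      rw [mem_closedBall]
      have h1 := key z
      rw [hp', sub_self, sub_self, sub_self, mul_zero, add_zero] at h1
      have h2 : dist z (cen a b z) ^ 2 = rr a b ^ 2 := by
        have : dist z (cen a b z) ^ 2 - rr a b ^ 2 = 0 := by
          rw [h1]
          ring
        linarith
      exact ((pow_left_inj₀ dist_nonneg hr0.le two_ne_zero).1 h2).le

end Pool.Agent.H728.EL
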